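import Pool.Agent.K1H12.SW.Stm

/-!
# Project HE: elementary change of lattice
-/

set_option autoImplicit false

namespace Pool.Agent.K1H59.HE

open Pool.Agent.K1H12.SW

theorem factor_aux (p : ℕ) [Fact p.Prime] {P Q S : Type} [AddCommGroup P] [AddCommGroup Q]
    [AddCommGroup S] [Module (ZMod p) P] [Module (ZMod p) Q] (φ : P →+ Q)
    (hφ : Function.Injective φ) (f : P →+ S) : ∃ k : Q →+ S, ∀ x, k (φ x) = f x := by
  have hinj : Function.Injective (φ.toZModLinearMap p) := hφ
  obtain ⟨g, hg⟩ := LinearMap.exists_leftInverse_of_injective (φ.toZModLinearMap p)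
    (LinearMap.ker_eq_bot.2 hinj)
  refine ⟨f.comp g.toAddMonoidHom, fun x => ?_⟩
  have h1 : g (φ x) = x := LinearMap.congr_fun hg x
  show f (g (φ x)) = f x
  rw [h1]

/-- factorisation of homomorphisms into groups killed by the prime `p` -/
theorem factor {p : ℕ} (hp : p.Prime) {A Q S : Type} [AddCommGroup A] [AddCommGroup Q]
    [AddCommGroup S] (hQ : ∀ q : Q, p • q = 0) (φ : A →ₗ[ℤ] Q)
    (f : A →ₗ[ℤ] S) (h : ∀ x, φ x = 0 → f x = 0) : ∃ k : Q →ₗ[ℤ] S, ∀ x, k (φ x) = f x := by
  have : Fact p.Prime := ⟨hp⟩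
  let φ' : (A ⧸ LinearMap.ker φ) →ₗ[ℤ] Q := (LinearMap.ker φ).liftQ φ le_rfl
  have hinj : Function.Injective φ' := by
    rw [← LinearMap.ker_eq_bot, Submodule.ker_liftQ_eq_bot]
    exact le_rfl
  have hP : ∀ x : A ⧸ LinearMap.ker φ, p • x = 0 := by
    intro x
    apply hinj
    rw [map_nsmul, map_zero]
    exact hQ _
  let f' : (A ⧸ LinearMap.ker φ) →ₗ[ℤ] S := (LinearMap.ker φ).liftQ f (fun x hx => h x hx)
  obtain ⟨k, hk⟩ := @factor_aux p _ (A ⧸ LinearMap.ker φ) Q S _ _ _
    (AddCommGroup.zmodModule hP) (AddCommGroup.zmodModule hQ) φ'.toAddMonoidHom hinj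
    f'.toAddMonoidHom
  exact ⟨k.toIntLinearMap, fun x => hk (Submodule.Quotient.mk x)⟩

section sub

variable {G : Type} [Group G] {V : Type} [AddCommGroup V]

/-- restriction to an invariant subgroup -/
def subR (ρ : Representation ℤ G V) (W : Submodule ℤ V) (h : ∀ g, ∀ w ∈ W, ρ g w ∈ W) :
    Representation ℤ G W where
  toFun g := (ρ g).restrict (h g)
  map_one' := by
    ext w
    simp
  map_mul' g g' := by
    ext w
    simp

theorem small_sub {ρ : Representation ℤ G V} {W : Submodule ℤ V}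
    (h : ∀ g, ∀ w ∈ W, ρ g w ∈ W) (hs : Small ρ) : Small (subR ρ W h) := by
  classical
  have := hs.1
  refine ⟨inferInstance, ?_⟩
  have : Finite (Set.range ρ) := hs.2
  have hsub : Set.range (subR ρ W h) ⊆
      Set.range (fun A : Set.range ρ => subR ρ W h (Classical.choose A.2)) := by
    rintro _ ⟨g, rfl⟩
    refine ⟨⟨ρ g, g, rfl⟩, ?_⟩
    have h1 : ρ (Classical.choose (⟨ρ g, g, rfl⟩ : Set.range ρ).2) = ρ g :=
      Classical.choose_spec (⟨ρ g, g, rfl⟩ : Set.range ρ).2
    refine LinearMap.ext fun w => Subtype.ext ?_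
    show ρ (Classical.choose (⟨ρ g, g, rfl⟩ : Set.range ρ).2) w = ρ g w
    rw [h1]
  exact (Set.finite_range _).subset hsub

theorem small_lin {W : Type} [AddCommGroup W] {ρ : Representation ℤ G V}
    {σ : Representation ℤ G W} (hf : Module.Free ℤ V) (hρ : Small ρ) (hσ : Small σ) :
    Small (Representation.linHom ρ σ) := by
  classical
  have := hρ.1
  have := hσ.1
  constructor
  · let b := Module.Free.chooseBasis ℤ V
    exact Module.Finite.equiv (b.constr ℤ : (_ → W) ≃ₗ[ℤ] (V →ₗ[ℤ] W))
  · refine ((hρ.2.prod hσ.2).image (fun AB : (V →ₗ[ℤ] V) × (W →ₗ[ℤ] W) =>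
      ((LinearMap.llcomp ℤ V W W AB.2).comp ((LinearMap.lcomp ℤ W AB.1))))).subset ?_
    rintro _ ⟨g, rfl⟩
    refine ⟨(ρ g⁻¹, σ g), ⟨⟨g⁻¹, rfl⟩, ⟨g, rfl⟩⟩, ?_⟩
    refine LinearMap.ext fun f => LinearMap.ext fun v => ?_
    simp [Representation.linHom_apply]

end sub

theorem t_EL : S_EL := by
  intro hR hFin G _ hP M M' S _ _ _ μ μ' σ j p l hfM hfM' sμ sμ' sσ hp hl hS hj hji hpM
  have hRG := hR G
  have hFG := hFin G
  have s1 := small_lin (ρ := μ) (σ := σ) hfM sμ sσ
  have s2 := small_lin (ρ := μ') (σ := σ) hfM' sμ' sσ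
  -- the map `t`
  choose t0 ht0 using hpM
  let t : M' →ₗ[ℤ] M := (AddMonoidHom.mk' t0 (fun x y => hji (by
    rw [map_add, ht0, ht0, ht0, smul_add]))).toIntLinearMap
  have ht : ∀ x, j (t x) = p • x := ht0
  have htj : ∀ m, t (j m) = p • m := fun m => hji (by rw [ht, map_nsmul])
  have hte : ∀ (g : G) (x : M'), t (μ' g x) = μ g (t x) := fun g x => hji (by
    rw [ht, hj g (t x), ht, map_nsmul])
  have htor : ∀ x : M', p • x = 0 → x = 0 := by
    intro x hx
    have _ := hfM'
    have hx' : (p : ℤ) • x = 0 := by rw [natCast_zsmul]; exact hx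
    exact (smul_eq_zero.1 hx').resolve_left (by exact_mod_cast hp.ne_zero)
  have hti : Function.Injective t := by
    intro x y hxy
    have h1 : p • (x - y) = 0 := by
      rw [← ht, map_sub, hxy, sub_self, map_zero]
    exact sub_eq_zero.1 (htor _ h1)
  -- the maps `a` and `b`
  let a : (M' →ₗ[ℤ] S) →ₗ[ℤ] (M →ₗ[ℤ] S) := LinearMap.lcomp ℤ S j
  let b : (M →ₗ[ℤ] S) →ₗ[ℤ] (M' →ₗ[ℤ] S) := LinearMap.lcomp ℤ S t
  have ha : ∀ f m, a f m = f (j m) := fun _ _ => rfl
  have hb : ∀ f x, b f x = f (t x) := fun _ _ => rfl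
  have hae : ∀ (g : G) (f : M' →ₗ[ℤ] S), a (Representation.linHom μ' σ g f) =
      Representation.linHom μ σ g (a f) := by
    intro g f
    refine LinearMap.ext fun m => ?_
    rw [ha, Representation.linHom_apply, Representation.linHom_apply]
    simp only [LinearMap.comp_apply]
    rw [ha, hj]
  have hbe : ∀ (g : G) (f : M →ₗ[ℤ] S), b (Representation.linHom μ σ g f) =
      Representation.linHom μ' σ g (b f) := by
    intro g f
    refine LinearMap.ext fun m => ?_
    rw [hb, Representation.linHom_apply, Representation.linHom_apply]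
    simp only [LinearMap.comp_apply]
    rw [hb, hte]
  by_cases hlp : l = p
  · subst hlp
    have hab : ∀ f, a (b f) = 0 := by
      intro f
      refine LinearMap.ext fun m => ?_
      rw [ha, hb, htj, map_nsmul, hS]
      rfl
    have hba : ∀ f, b (a f) = 0 := by
      intro f
      refine LinearMap.ext fun x => ?_
      rw [hb, ha, ht, map_nsmul, hS]
      rfl
    -- exactness
    have ex1 : ∀ f, a f = 0 → ∃ h, b h = f := by
      intro f hf
      let Pm : Submodule ℤ M := LinearMap.range ((l : ℤ) • (LinearMap.id : M →ₗ[ℤ] M))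
      have hQ : ∀ q : M ⧸ Pm, l • q = 0 := by
        intro q
        obtain ⟨m, rfl⟩ := Submodule.Quotient.mk_surjective _ q
        rw [← Submodule.Quotient.mk_smul, Submodule.Quotient.mk_eq_zero]
        exact ⟨m, by simp⟩
      obtain ⟨k, hk⟩ := factor hp hQ (Pm.mkQ.comp t) f (by
        intro x hx
        rw [LinearMap.comp_apply, Submodule.mkQ_apply, Submodule.Quotient.mk_eq_zero] at hx
        obtain ⟨m, hm⟩ := hx
        have h1 : t x = t (j m) := by
          rw [htj, ← hm]
          simp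
        rw [hti h1, ← ha, hf]
        rfl)
      refine ⟨k.comp Pm.mkQ, LinearMap.ext fun x => ?_⟩
      rw [hb]
      exact hk x
    have ex2 : ∀ h, b h = 0 → ∃ f, a f = h := by
      intro h hh
      let Pm : Submodule ℤ M' := LinearMap.range ((l : ℤ) • (LinearMap.id : M' →ₗ[ℤ] M'))
      have hQ : ∀ q : M' ⧸ Pm, l • q = 0 := by
        intro q
        obtain ⟨m, rfl⟩ := Submodule.Quotient.mk_surjective _ q
        rw [← Submodule.Quotient.mk_smul, Submodule.Quotient.mk_eq_zero]
        exact ⟨m, by simp⟩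
      obtain ⟨k, hk⟩ := factor hp hQ (Pm.mkQ.comp j) h (by
        intro m hm
        rw [LinearMap.comp_apply, Submodule.mkQ_apply, Submodule.Quotient.mk_eq_zero] at hm
        obtain ⟨x, hx⟩ := hm
        have h1 : j m = j (t x) := by
          rw [ht, ← hx]
          simp
        rw [hji h1, ← hb, hh]
        rfl)
      refine ⟨k.comp Pm.mkQ, LinearMap.ext fun x => ?_⟩
      rw [ha]
      exact hk x
    have ia : ∀ (g : G), ∀ f ∈ LinearMap.ker a, Representation.linHom μ' σ g f ∈
        LinearMap.ker a := by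
      intro g f hf
      rw [LinearMap.mem_ker] at hf ⊢
      rw [hae, hf, map_zero]
    have ib : ∀ (g : G), ∀ f ∈ LinearMap.ker b, Representation.linHom μ σ g f ∈
        LinearMap.ker b := by
      intro g f hf
      rw [LinearMap.mem_ker] at hf ⊢
      rw [hbe, hf, map_zero]
    let κ := subR (Representation.linHom μ' σ) (LinearMap.ker a) ia
    let ι := subR (Representation.linHom μ σ) (LinearMap.ker b) ib
    have fκ : FPr κ := hFG.P hP _ κ (small_sub ia s2)
    have fι : FPr ι := hFG.P hP _ ι (small_sub ib s1)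
    have ses1 : Ses κ (Representation.linHom μ' σ) ι := by
      refine ⟨(LinearMap.ker a).subtype, a.codRestrict (LinearMap.ker b)
        (fun f => LinearMap.mem_ker.2 (hba f)), ?_, ?_, Subtype.val_injective, ?_, ?_⟩
      · intro g v
        rfl
      · intro g v
        exact Subtype.ext (hae g v)
      · rintro ⟨h, hh⟩
        obtain ⟨f, hf⟩ := ex2 h hh
        exact ⟨f, Subtype.ext hf⟩
      · intro f
        constructor
        · intro hf
          exact ⟨⟨f, LinearMap.mem_ker.2 (congrArg Subtype.val hf)⟩, rfl⟩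
        · rintro ⟨f', rfl⟩
          exact Subtype.ext (LinearMap.mem_ker.1 f'.2)
    have ses2 : Ses ι (Representation.linHom μ σ) κ := by
      refine ⟨(LinearMap.ker b).subtype, b.codRestrict (LinearMap.ker a)
        (fun f => LinearMap.mem_ker.2 (hab f)), ?_, ?_, Subtype.val_injective, ?_, ?_⟩
      · intro g v
        rfl
      · intro g v
        exact Subtype.ext (hbe g v)
      · rintro ⟨h, hh⟩
        obtain ⟨f, hf⟩ := ex1 h hh
        exact ⟨f, Subtype.ext hf⟩
      · intro f
        constructor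
        · intro hf
          exact ⟨⟨f, LinearMap.mem_ker.2 (congrArg Subtype.val hf)⟩, rfl⟩
        · rintro ⟨f', rfl⟩
          exact Subtype.ext (LinearMap.mem_ker.1 f'.2)
    exact hRG.symm _ _ _ _ (hRG.swap _ _ _ _ _ _ _ _ ses1 ses2 fκ fι)
  · -- `l ≠ p`
    have hcop : Nat.Coprime p l := (Nat.coprime_primes hp hl).2 (Ne.symm hlp)
    obtain ⟨c, k, hck⟩ : ∃ c k : ℤ, c * p = 1 + k * l := by
      have h1 : IsCoprime (p : ℤ) (l : ℤ) := Nat.isCoprime_iff_coprime.2 hcop
      obtain ⟨u, v, huv⟩ := h1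
      exact ⟨u, -v, by linarith⟩
    have hc : ∀ s : S, c • (p • s) = s := by
      intro s
      have h1 : c • (p • s) = (c * (p : ℤ)) • s := by
        rw [mul_smul, natCast_zsmul]
      rw [h1, hck, add_smul, one_smul, mul_smul, natCast_zsmul, hS, smul_zero, add_zero]
    have iso : IsoR (Representation.linHom μ' σ) (Representation.linHom μ σ) := by
      refine ⟨LinearEquiv.ofLinearMap a (c • b) ?_ ?_, fun g f => hae g f⟩
      · refine LinearMap.ext fun f => LinearMap.ext fun m => ?_
        show c • f (t (j m)) = f m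
        rw [htj, map_nsmul, hc]
      · refine LinearMap.ext fun f => LinearMap.ext fun x => ?_
        show c • f (j (t x)) = f x
        rw [ht, map_nsmul, hc]
    exact hRG.symm _ _ _ _ (hRG.iso _ _ _ _ iso (hFG.P hP _ _ s2))

end Pool.Agent.K1H59.HE
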